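import Pool.Agent.Lib.MP_43df1d_lc.GT.Iface

set_option autoImplicit false

namespace Pool.Agent.Lib.MP_43df1d_lc.GT

namespace ELIMB

variable {K : Type} [CommRing K] {𝓗 : ℕ → Set K}

theorem sum_mem (h : Ht 𝓗) {n a : ℕ} (f : Fin n → K) (hf : ∀ j, f j ∈ 𝓗 a) : ∑ j, f j ∈ 𝓗 (a + n) := by
  induction n with
  | zero => simpa using h.mono (Nat.zero_le _) h.zero
  | succ n ih =>
    rw [Fin.sum_univ_castSucc]
    exact h.mono (by omega) (h.add (ih (fun j => f j.castSucc) fun j => hf _) (h.mono (by omega) (hf _)))

theorem EE_step (n m L : ℕ) : EE n m (2 * L + 1) + L + n + 1 ≤ EE n (m + 1) L := by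
  unfold EE
  have h1 : 2 ^ m * (2 * L + 1 + 1) = 2 ^ (m + 1) * (L + 1) := by ring
  rw [h1]
  have h2 : L + 1 ≤ 2 ^ (m + 1) * (L + 1) := Nat.le_mul_of_pos_left _ (by positivity)
  nlinarith

theorem EE_mono {n m m' L : ℕ} (h : m ≤ m') : EE n m L ≤ EE n m' L := by
  unfold EE
  gcongr
  norm_num

end ELIMB

open ELIMB

theorem elimB : ElimS := by
  intro K _ _ 𝓗 h n m
  induction m with
  | zero =>
    intro L ρ g α _ _ hg
    obtain ⟨j, -, hj⟩ := Finset.exists_ne_zero_of_sum_ne_zero hg
    refine ⟨fun i => if i = j then 1 else 0, fun i => ?_, fun i => i.elim0, ?_⟩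
    · by_cases hi : i = j
      · simp only [if_pos hi]; exact h.mono (Nat.zero_le _) h.one
      · simp only [if_neg hi]; exact h.mono (Nat.zero_le _) h.zero
    · simpa using left_ne_zero_of_mul hj
  | succ m ih =>
    intro L ρ g α hρ hα hg
    by_cases h0 : ∀ j, ρ 0 j = 0
    · obtain ⟨β, h1, h2, h3⟩ := ih L (fun i => ρ i.succ) g α (fun i j => hρ _ _) (fun i => hα _) hg
      refine ⟨β, fun j => h.mono (EE_mono (Nat.le_succ m)) (h1 j), fun i => ?_, h3⟩
      refine Fin.cases ?_ (fun i => h2 i) i
      simp [h0]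
    · push Not at h0
      obtain ⟨p, hp⟩ := h0
      set π := ρ 0 p with hπ
      have e1 : ∀ (u v : Fin n → K) (c d : K) , ∑ j, (c * u j - d * ρ 0 j) * v j =
          c * ∑ j, u j * v j - d * ∑ j, ρ 0 j * v j := by
        intro u v c d
        rw [Finset.mul_sum, Finset.mul_sum, ← Finset.sum_sub_distrib]
        exact Finset.sum_congr rfl fun j _ => by ring
      obtain ⟨β, h1, h2, h3⟩ := ih (2 * L + 1) (fun i j => π * ρ i.succ j - ρ i.succ p * ρ 0 j)
        (fun j => π * g j - g p * ρ 0 j) α
        (fun i j => by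
          rw [sub_eq_add_neg]
          refine h.mono (by omega) (h.add (a := 2 * L) ?_ (h.neg ?_))
          · exact h.mono (by omega) (h.mul (hρ 0 p) (hρ _ _))
          · exact h.mono (by omega) (h.mul (hρ _ p) (hρ _ _)))
        (fun i => by rw [e1, hα, hα]; ring)
        (by rw [e1, hα]; simpa using ⟨hp, hg⟩)
      set s := ∑ j, ρ 0 j * β j with hs
      refine ⟨fun j => π * β j - if j = p then s else 0, fun j => ?_, ?_, ?_⟩
      · have h4 : π * β j ∈ 𝓗 (EE n m (2 * L + 1) + L + n) :=
          h.mono (by omega) (h.mul (hρ 0 p) (h1 j))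
        have h5 : s ∈ 𝓗 (EE n m (2 * L + 1) + L + n) :=
          h.mono (by omega) (sum_mem h _ fun j => h.mul (hρ 0 j) (h1 j))
        refine h.mono (EE_step n m L) ?_
        show π * β j - (if j = p then s else 0) ∈ _
        rw [sub_eq_add_neg]
        refine h.mono (by omega) (h.add h4 (h.neg ?_))
        by_cases hj : j = p
        · simpa [hj] using h5
        · simpa [hj] using h.mono (Nat.zero_le _) h.zero
      · have e2 : ∀ u : Fin n → K, ∑ j, u j * (π * β j - if j = p then s else 0) =
            π * ∑ j, u j * β j - u p * s := by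
          intro u
          simp only [mul_sub, Finset.sum_sub_distrib, mul_ite, mul_zero, Finset.sum_ite_eq', Finset.mem_univ,
            if_true, Finset.mul_sum]
          congr 1
          exact Finset.sum_congr rfl fun j _ => by ring
        intro i
        refine Fin.cases ?_ (fun i => ?_) i
        · rw [e2, ← hs, ← hπ]; ring
        · rw [e2]
          have := h2 i
          rw [e1] at this
          exact this
      · have e2 : ∀ u : Fin n → K, ∑ j, u j * (π * β j - if j = p then s else 0) =
            π * ∑ j, u j * β j - u p * s := by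
          intro u
          simp only [mul_sub, Finset.sum_sub_distrib, mul_ite, mul_zero, Finset.sum_ite_eq', Finset.mem_univ,
            if_true, Finset.mul_sum]
          congr 1
          exact Finset.sum_congr rfl fun j _ => by ring
        rw [e2]
        rw [e1] at h3
        exact h3

end Pool.Agent.Lib.MP_43df1d_lc.GT
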