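import Pool.Agent.Lib.MP_43df1d_lc.GT.Iface

/-!
Row PAT (second copy).
-/

set_option autoImplicit false

namespace Pool.Agent.Lib.MP_43df1d_lc.GT

namespace PATB

variable {N : ℕ}

theorem ht : Ht (fun a : ℕ => {n : ℤ | |n| ≤ 2 ^ a}) where
  zero := by simp
  one := by simp
  mono := fun {a b} h n hn => le_trans (show |n| ≤ 2 ^ a from hn) (pow_le_pow_right₀ (by norm_num) h)
  add := fun {a x y} hx hy => by
    have h1 : |x| ≤ 2 ^ a := hx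
    have h2 : |y| ≤ 2 ^ a := hy
    show |x + y| ≤ 2 ^ (a + 1)
    calc |x + y| ≤ |x| + |y| := abs_add_le _ _
      _ ≤ 2 ^ a + 2 ^ a := add_le_add h1 h2
      _ = 2 ^ (a + 1) := by ring
  neg := fun {a x} hx => by
    show |-x| ≤ 2 ^ a
    rw [abs_neg]; exact hx
  mul := fun {a b x y} hx hy => by
    have h1 : |x| ≤ 2 ^ a := hx
    have h2 : |y| ≤ 2 ^ b := hy
    show |x * y| ≤ 2 ^ (a + b)
    rw [abs_mul, pow_add]
    exact mul_le_mul h1 h2 (abs_nonneg _) (by positivity)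

theorem EE_mono {n m m' L : ℕ} (h : m ≤ m') : EE n m L ≤ EE n m' L := by
  unfold EE
  gcongr
  norm_num

/-- the box -/
noncomputable def box (N H : ℕ) : Finset (Fin N → ℤ) := Finset.Icc (fun _ => -(H : ℤ)) (fun _ => (H : ℤ))

theorem mem_box {H : ℕ} {ℓ : Fin N → ℤ} : ℓ ∈ box N H ↔ ∀ i, |ℓ i| ≤ (H : ℤ) := by
  simp only [box, Finset.mem_Icc, Pi.le_def, abs_le]
  exact ⟨fun h i => ⟨h.1 i, h.2 i⟩, fun h => ⟨fun i => (h i).1, fun i => (h i).2⟩⟩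

theorem card_box (N H : ℕ) : (box N H).card = (2 * H + 1) ^ N := by
  rw [box, Pi.card_Icc]
  simp only [Int.card_Icc, Finset.prod_const, Finset.card_univ, Fintype.card_fin]
  congr 1
  omega

theorem dot_add (k β ℓ : Fin N → ℤ) (M : ℤ) : dot (fun i => k i + M * β i) ℓ = dot k ℓ + M * dot β ℓ := by
  simp only [dot_apply, mul_add, Finset.sum_add_distrib, Finset.mul_sum]
  congr 1
  exact Finset.sum_congr rfl fun i _ => by ring

theorem abs_dot_le {H C : ℕ} {k ℓ : Fin N → ℤ} (hk : ∀ i, |k i| ≤ (C : ℤ)) (hℓ : ∀ i, |ℓ i| ≤ (H : ℤ)) :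
    |dot k ℓ| ≤ ((N * H * C : ℕ) : ℤ) := by
  rw [dot_apply]
  calc |∑ i, ℓ i * k i| ≤ ∑ i, |ℓ i * k i| := Finset.abs_sum_le_sum_abs _ _
    _ ≤ ∑ _i : Fin N, (H : ℤ) * C := by
        refine Finset.sum_le_sum fun i _ => ?_
        rw [abs_mul]
        exact mul_le_mul (hℓ i) (hk i) (abs_nonneg _) (by positivity)
    _ = ((N * H * C : ℕ) : ℤ) := by
        rw [Finset.sum_const, Finset.card_univ, Fintype.card_fin]
        push_cast
        ring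

theorem ne_of_big {a b : ℤ} {M : ℕ} (ha : |a| < (M : ℤ)) (h : b ≠ 0) : a + M * b ≠ 0 := by
  intro h1
  have h2 : |a| = M * |b| := by
    have : a = -(M * b) := by linarith
    rw [this, abs_neg, abs_mul, Nat.abs_cast]
  have h3 : (1 : ℤ) ≤ |b| := Int.one_le_abs h
  nlinarith [abs_nonneg a]

theorem kerZ (hE : ElimS) {H : ℕ} (k : Fin N → ℤ) (Z : List (Fin N → ℤ)) (hZ : ∀ ℓ ∈ Z, (∀ i, |ℓ i| ≤ (H : ℤ)) ∧ dot k ℓ = 0)
    (ℓ : Fin N → ℤ) (hℓ : dot k ℓ ≠ 0) {m : ℕ} (hm : Z.length ≤ m) :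
    ∃ β : Fin N → ℤ, (∀ j, |β j| ≤ ((2 ^ EE N m H : ℕ) : ℤ)) ∧ (∀ ℓ' ∈ Z, dot β ℓ' = 0) ∧ dot β ℓ ≠ 0 := by
  obtain ⟨β, h1, h2, h3⟩ := hE ℤ _ ht N Z.length H (fun i => Z.get i) ℓ k
    (fun i j => by
      have h1 := (hZ _ (List.get_mem Z i)).1 j
      show |Z.get i j| ≤ 2 ^ H
      refine h1.trans ?_
      exact_mod_cast (Nat.lt_two_pow_self (n := H)).le)
    (fun i => (hZ _ (List.get_mem Z i)).2) hℓ
  refine ⟨β, fun j => ?_, fun ℓ' hℓ' => ?_, h3⟩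
  · have h4 : |β j| ≤ 2 ^ EE N Z.length H := h1 j
    refine h4.trans ?_
    push_cast
    exact pow_le_pow_right₀ (by norm_num) (EE_mono hm)
  · obtain ⟨i, rfl⟩ := List.get_of_mem hℓ'
    exact h2 i

theorem comb {H B : ℕ} (Z L : List (Fin N → ℤ)) (hL : ∀ ℓ ∈ L, ∀ i, |ℓ i| ≤ (H : ℤ))
    (hk : ∀ ℓ ∈ L, ∃ β : Fin N → ℤ, (∀ j, |β j| ≤ (B : ℤ)) ∧ (∀ ℓ' ∈ Z, dot β ℓ' = 0) ∧ dot β ℓ ≠ 0) :
    ∃ k' : Fin N → ℤ, (∀ j, |k' j| ≤ (((1 + (N * H + 1) * B) ^ L.length : ℕ) : ℤ)) ∧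
      (∀ ℓ' ∈ Z, dot k' ℓ' = 0) ∧ ∀ ℓ ∈ L, dot k' ℓ ≠ 0 := by
  induction L with
  | nil => exact ⟨fun _ => 0, fun j => by simp, fun ℓ _ => by simp [dot_apply], fun ℓ h => absurd h List.not_mem_nil⟩
  | cons ℓ L ih =>
    obtain ⟨k', h1, h2, h3⟩ := ih (fun ℓ' h => hL ℓ' (List.mem_cons_of_mem _ h))
      (fun ℓ' h => hk ℓ' (List.mem_cons_of_mem _ h))
    obtain ⟨β, h4, h5, h6⟩ := hk ℓ List.mem_cons_self
    set C := (1 + (N * H + 1) * B) ^ L.length with hC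
    have hC1 : 1 ≤ C := Nat.one_le_pow _ _ (by omega)
    set M := N * H * C + 1 with hM
    have hbig : ∀ ℓ' ∈ ℓ :: L, |dot k' ℓ'| < (M : ℤ) := by
      intro ℓ' hℓ'
      refine lt_of_le_of_lt (abs_dot_le h1 (hL ℓ' hℓ')) ?_
      rw [hM]
      push_cast
      linarith
    refine ⟨fun i => k' i + M * β i, fun j => ?_, fun ℓ' hℓ' => ?_, fun ℓ' hℓ' => ?_⟩
    · have h7 : |k' j + M * β j| ≤ (C : ℤ) + M * B := by
        refine (abs_add_le _ _).trans (add_le_add (h1 j) ?_)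
        rw [abs_mul, Nat.abs_cast]
        exact mul_le_mul_of_nonneg_left (h4 j) (Int.natCast_nonneg _)
      refine h7.trans ?_
      have h8 : C + M * B ≤ (1 + (N * H + 1) * B) ^ (L.length + 1) := by
        rw [pow_succ, ← hC, hM]
        have : B ≤ C * B := Nat.le_mul_of_pos_left _ (by omega)
        nlinarith
      rw [List.length_cons]
      exact_mod_cast h8
    · rw [dot_add, h2 ℓ' hℓ', h5 ℓ' hℓ']
      simp
    · rw [dot_add]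
      by_cases h7 : dot β ℓ' = 0
      · rw [h7, mul_zero, add_zero]
        rcases List.mem_cons.1 hℓ' with rfl | h8
        · exact absurd h7 h6
        · exact h3 ℓ' h8
      · exact ne_of_big (hbig ℓ' hℓ') h7

end PATB

open PATB

theorem patB (hE : ElimS) : PatS := by
  classical
  intro N H k
  set Z := ((box N H).filter fun ℓ => dot k ℓ = 0).toList with hZ
  set L := ((box N H).filter fun ℓ => dot k ℓ ≠ 0).toList with hL
  have hZm : ∀ ℓ, ℓ ∈ Z ↔ (∀ i, |ℓ i| ≤ (H : ℤ)) ∧ dot k ℓ = 0 := fun ℓ => by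
    rw [hZ, Finset.mem_toList, Finset.mem_filter, mem_box]
  have hLm : ∀ ℓ, ℓ ∈ L ↔ (∀ i, |ℓ i| ≤ (H : ℤ)) ∧ dot k ℓ ≠ 0 := fun ℓ => by
    rw [hL, Finset.mem_toList, Finset.mem_filter, mem_box]
  have hZc : Z.length ≤ (2 * H + 1) ^ N := by
    rw [hZ, Finset.length_toList, ← card_box]
    exact Finset.card_filter_le _ _
  have hLc : L.length ≤ (2 * H + 1) ^ N := by
    rw [hL, Finset.length_toList, ← card_box]
    exact Finset.card_filter_le _ _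
  obtain ⟨k', h1, h2, h3⟩ := comb (H := H) (B := 2 ^ EE N ((2 * H + 1) ^ N) H) Z L (fun ℓ h => ((hLm ℓ).1 h).1)
    (fun ℓ h => kerZ hE k Z (fun ℓ h => (hZm ℓ).1 h) ℓ ((hLm ℓ).1 h).2 hZc)
  refine ⟨k', fun i => (h1 i).trans ?_, fun ℓ hℓ => ⟨fun h => h2 ℓ ((hZm ℓ).2 ⟨hℓ, h⟩), fun h => ?_⟩⟩
  · unfold PB
    exact_mod_cast Nat.pow_le_pow_right (by omega) hLc
  · by_contra h4
    exact h3 ℓ ((hLm ℓ).2 ⟨hℓ, h4⟩) h

end Pool.Agent.Lib.MP_43df1d_lc.GT
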