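import Pool.Agent.Lib.MP_43df1d_lc.GT.Loc

/-!
Row WORD (second copy).
-/

set_option autoImplicit false

namespace Pool.Agent.Lib.MP_43df1d_lc.GT

namespace WORDB

open LOC

variable {N : ℕ}

/-- the formal monomial -/
noncomputable def tP (ℓ : Fin N → ℤ) : P N := AddMonoidAlgebra.single ℓ 1

theorem phi_tP (k ℓ : Fin N → ℤ) : phi k (tP ℓ) = te (dot k ℓ) := by
  show AddMonoidAlgebra.mapDomain (dot k) (AddMonoidAlgebra.single ℓ 1) = _
  rw [AddMonoidAlgebra.mapDomain_single]
  rfl

theorem tP_mem {h : ℕ} {ℓ : Fin N → ℤ} (hℓ : ∀ i, |ℓ i| ≤ (h : ℤ)) : tP ℓ ∈ Bx N h := by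
  intro ℓ' h' i
  have h0 : ℓ' = ℓ := by
    by_contra h1
    refine h' ?_
    rw [tP, AddMonoidAlgebra.coeff_single, Finsupp.single_apply, if_neg (Ne.symm h1)]
  rw [h0]
  exact hℓ i

noncomputable def mul (F F' : Fm N) : Fm N where
  l := F.l + F'.l
  A := fun i => F'.A i + F.A i * tP F'.l
  B := fun i => tP F.l * F'.B i + F.B i
  G := fun i j => F.G i j + F'.G i j + F.A i * F'.B j
  lam := fun i => F.lam i + F'.lam i

theorem mul_bdd {F F' : Fm N} {h h' : ℕ} (hF : F.Bdd h) (hF' : F'.Bdd h') : (mul F F').Bdd (h + h') where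
  l := fun i => by
    push_cast
    exact (abs_add_le _ _).trans (add_le_add (hF.l i) (hF'.l i))
  A := fun i => Bx_add (Bx_mono (by omega) (hF'.A i)) (Bx_mul (hF.A i) (tP_mem hF'.l))
  B := fun i => Bx_add (Bx_mul (tP_mem hF.l) (hF'.B i)) (Bx_mono (by omega) (hF.B i))
  G := fun i j => Bx_add (Bx_add (Bx_mono (by omega) (hF.G i j)) (Bx_mono (by omega) (hF'.G i j)))
    (Bx_mul (hF.A i) (hF'.B j))

theorem mul_val {F F' : Fm N} {x : Fin N → Hal} {g g' : Hal} (h : F.Val x g) (h' : F'.Val x g') :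
    (mul F F').Val x (g * g') where
  k := by
    rw [Hal.mul_k, h.k, h'.k]
    exact (map_add _ _ _).symm
  a := by
    rw [Hal.mul_a, h'.a, h.a, h'.k, ← phi_tP, Finset.sum_mul, ← Finset.sum_add_distrib]
    refine Finset.sum_congr rfl fun i _ => ?_
    simp only [mul, map_add, map_mul]
    ring
  b := by
    rw [Hal.mul_b, h'.b, h.b, h.k, ← phi_tP, Finset.mul_sum, ← Finset.sum_add_distrib]
    refine Finset.sum_congr rfl fun i _ => ?_
    simp only [mul, map_add, map_mul]
    ring
  c := by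
    rw [Hal.mul_c, h.c, h'.c, h.a, h'.b, Finset.sum_mul_sum]
    simp only [mul, map_add, map_mul, add_mul, add_smul, Finset.sum_add_distrib]
    have e : ∀ i j, phi (fun i => (x i).k) (F.A i) * (x i).a * (phi (fun i => (x i).k) (F'.B j) * (x j).b) =
        phi (fun i => (x i).k) (F.A i) * phi (fun i => (x i).k) (F'.B j) * ((x i).a * (x j).b) :=
      fun i j => by ring
    simp only [e]
    abel

noncomputable def lt (j : Fin N) : Fm N where
  l := Pi.single j 1
  A := Pi.single j 1
  B := Pi.single j 1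
  G := 0
  lam := Pi.single j 1

noncomputable def lf (j : Fin N) : Fm N where
  l := -Pi.single j 1
  A := Pi.single j (tP (-Pi.single j 1))
  B := Pi.single j (tP (-Pi.single j 1))
  G := fun i i' => if i = j then (if i' = j then tP (-Pi.single j 1) else 0) else 0
  lam := Pi.single j 1

theorem single_le (j i : Fin N) : |(Pi.single j 1 : Fin N → ℤ) i| ≤ ((1 : ℕ) : ℤ) := by
  by_cases h : i = j
  · subst h; simp
  · simp [Pi.single_eq_of_ne h]

theorem single_mem (j : Fin N) {Φ : P N} {h : ℕ} (hΦ : Φ ∈ Bx N h) (i : Fin N) :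
    (Pi.single j Φ : Fin N → P N) i ∈ Bx N h := by
  by_cases h : i = j
  · subst h; simpa using hΦ
  · rw [Pi.single_eq_of_ne h]; exact Bx_zero

theorem lt_bdd (j : Fin N) : (lt j).Bdd 1 where
  l := single_le j
  A := single_mem j Bx_one
  B := single_mem j Bx_one
  G := fun _ _ => Bx_zero

theorem neg_single_le (j i : Fin N) : |(-(Pi.single j 1 : Fin N → ℤ)) i| ≤ ((1 : ℕ) : ℤ) := by
  rw [Pi.neg_apply, abs_neg]
  exact single_le j i

theorem lf_bdd (j : Fin N) : (lf j).Bdd 1 where
  l := neg_single_le j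
  A := single_mem j (tP_mem (neg_single_le j))
  B := single_mem j (tP_mem (neg_single_le j))
  G := fun i i' => by
    simp only [lf]
    split_ifs
    · exact tP_mem (neg_single_le j)
    · exact Bx_zero
    · exact Bx_zero

theorem dot_single (k : Fin N → ℤ) (j : Fin N) : dot k (Pi.single j 1) = k j := by
  rw [dot_apply, Finset.sum_eq_single j]
  · simp
  · intro i _ hi; simp [Pi.single_eq_of_ne hi]
  · intro h; exact absurd (Finset.mem_univ _) h

theorem sum_single (j : Fin N) (k : Fin N → ℤ) (Φ : P N) (f : Fin N → R) :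
    ∑ i, phi k ((Pi.single j Φ : Fin N → P N) i) * f i = phi k Φ * f j := by
  rw [Finset.sum_eq_single j]
  · simp
  · intro i _ hi; simp [Pi.single_eq_of_ne hi]
  · intro h; exact absurd (Finset.mem_univ _) h

theorem sum_lam (j : Fin N) (f : Fin N → R) : ∑ i, (Pi.single j 1 : Fin N → ZMod 2) i • f i = f j := by
  rw [Finset.sum_eq_single j]
  · simp
  · intro i _ hi; simp [Pi.single_eq_of_ne hi]
  · intro h; exact absurd (Finset.mem_univ _) h

theorem lt_val (j : Fin N) (x : Fin N → Hal) : (lt j).Val x (x j) where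
  k := (dot_single (fun i => (x i).k) j).symm
  a := by
    show _ = ∑ i, phi _ ((Pi.single j 1 : Fin N → P N) i) * (x i).a
    rw [sum_single, map_one, one_mul]
  b := by
    show _ = ∑ i, phi _ ((Pi.single j 1 : Fin N → P N) i) * (x i).b
    rw [sum_single, map_one, one_mul]
  c := by
    show _ = ∑ i, ∑ i', phi (fun i => (x i).k) (0 : P N) * ((x i).a * (x i').b) +
      ∑ i, (Pi.single j 1 : Fin N → ZMod 2) i • (x i).c
    rw [sum_lam]
    simp

theorem lf_val (j : Fin N) (x : Fin N → Hal) : (lf j).Val x (x j)⁻¹ where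
  k := by
    show _ = dot _ (-Pi.single j 1)
    rw [map_neg, dot_single]
    rfl
  a := by
    show _ = ∑ i, phi _ ((Pi.single j (tP (-Pi.single j 1)) : Fin N → P N) i) * (x i).a
    rw [sum_single, phi_tP, map_neg, dot_single, mul_comm]
    rfl
  b := by
    show _ = ∑ i, phi _ ((Pi.single j (tP (-Pi.single j 1)) : Fin N → P N) i) * (x i).b
    rw [sum_single, phi_tP, map_neg, dot_single]
    rfl
  c := by
    show _ = ∑ i, ∑ i', phi (fun i => (x i).k) (if i = j then (if i' = j then tP (-Pi.single j 1) else 0) else 0) *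
      ((x i).a * (x i').b) + ∑ i, (Pi.single j 1 : Fin N → ZMod 2) i • (x i).c
    rw [sum_lam, Finset.sum_eq_single j, Finset.sum_eq_single j]
    · simp only [if_true]
      rw [phi_tP, map_neg, dot_single, Hal.inv_c]
      ring
    · intro i _ hi; simp [hi]
    · intro h; exact absurd (Finset.mem_univ _) h
    · intro i _ hi; simp [hi]
    · intro h; exact absurd (Finset.mem_univ _) h

end WORDB

open WORDB LOC

theorem wordB : WordS := by
  intro N w
  induction w with
  | nil =>
    intro _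
    refine ⟨⟨0, 0, 0, 0, 0⟩, ⟨fun i => by simp, fun _ => Bx_zero, fun _ => Bx_zero, fun _ _ => Bx_zero⟩, fun x => ?_⟩
    refine ⟨?_, ?_, ?_, ?_⟩
    · exact (map_zero (dot _)).symm
    · simp [wval]
    · simp [wval]
    · simp [wval]
  | cons c w ih =>
    intro hw
    obtain ⟨F, hF, hF'⟩ := ih fun c' hc' => hw c' (List.mem_cons_of_mem _ hc')
    obtain ⟨j, b⟩ := c
    have hj : j < N := hw (j, b) List.mem_cons_self
    cases b with
    | true =>
      refine ⟨mul (lt ⟨j, hj⟩) F, ?_, fun x => ?_⟩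
      · have := mul_bdd (lt_bdd (⟨j, hj⟩ : Fin N)) hF
        rwa [add_comm] at this
      · exact mul_val (lt_val ⟨j, hj⟩ fun i : Fin N => x i) (hF' x)
    | false =>
      refine ⟨mul (lf ⟨j, hj⟩) F, ?_, fun x => ?_⟩
      · have := mul_bdd (lf_bdd (⟨j, hj⟩ : Fin N)) hF
        rwa [add_comm] at this
      · exact mul_val (lf_val ⟨j, hj⟩ fun i : Fin N => x i) (hF' x)

end Pool.Agent.Lib.MP_43df1d_lc.GT
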