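import Pool.Agent.Lib.MP_43df1d_lc.GT.H58.Fin
import Pool.Agent.Lib.MP_43df1d_lc.GT.H58.WordB
import Pool.Agent.Lib.MP_43df1d_lc.GT.H58.ElimB
import Pool.Agent.Lib.MP_43df1d_lc.GT.H58.PatB
import Pool.Agent.Lib.MP_43df1d_lc.GT.Phi
import Pool.Agent.Lib.MP_43df1d_lc.GT.Loc
import Pool.Agent.Lib.MP_43df1d_lc.GT.Sep
import Pool.Agent.Lib.MP_43df1d_lc.GT.Small
import Pool.Agent.Lib.MP_43df1d_lc.GT.SatV
import Pool.Agent.Lib.MP_43df1d_lc.GT.Wrep
import Pool.Agent.Lib.MP_43df1d_lc.GT.Comp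
import Pool.Agent.Lib.MP_43df1d_lc.GT.Bnd
import Pool.Agent.Lib.MP_43df1d_lc.GT.Dec
import Pool.Agent.Lib.MP_43df1d_lc.GT.Open
import Pool.Agent.Lib.MP_43df1d_lc.GT.Dense
import Pool.Agent.Lib.MP_43df1d_lc.GT.Quot
import Pool.Agent.Lib.MP_43df1d_lc.GT.TopY
import Pool.Agent.Lib.MP_43df1d_lc.GT.Cont
import Pool.Agent.Lib.MP_43df1d_lc.GT.Perf
import Pool.Agent.Lib.MP_43df1d_lc.GT.GenB

/-!
The theorem of the board GT.
-/

set_option autoImplicit false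

namespace Pool.Agent.Lib.MP_43df1d_lc.GT

theorem t2t : T2T :=
  fin (dec satV (small wordB (patB elimB) (loc wordB elimB phiR) (sep wordB)) wrep oneP ctrP bnd)
    openS denseS (quot wrep) (perf compY topS contS t2S (injS wrep))
    (genOpen compY topS contS t2S (injS wrep)) (baire compY topS contS t2S (injS wrep))

end Pool.Agent.Lib.MP_43df1d_lc.GT
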