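import Pool.Agent.Lib.MP_43df1d_lc.GT.Iface

/-!
Row FIN: the theorem from the rows.
-/

set_option autoImplicit false

namespace Pool.Agent.Lib.MP_43df1d_lc.GT

theorem OpenY.inter {O O' : Set (AddSubgroup R)} (h : OpenY O) (h' : OpenY O') : OpenY (O ∩ O') := by
  classical
  rintro Y ⟨hY, hY'⟩
  obtain ⟨Z, hZ⟩ := h Y hY
  obtain ⟨Z', hZ'⟩ := h' Y hY'
  refine ⟨Z ∪ Z', fun Y₁ h1 => ⟨hZ Y₁ fun z hz => h1 z (Finset.mem_union_left _ hz),
    hZ' Y₁ fun z hz => h1 z (Finset.mem_union_right _ hz)⟩⟩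

theorem DenseY.inter {O O' : Set (AddSubgroup R)} (hO : OpenY O) (h : DenseY O) (h' : DenseY O') :
    DenseY (O ∩ O') := by
  classical
  intro Y Z
  obtain ⟨Y₁, h1, h1'⟩ := h Y Z
  obtain ⟨Z₁, hZ₁⟩ := hO Y₁ h1
  obtain ⟨Y₂, h2, h2'⟩ := h' Y₁ (Z ∪ Z₁)
  refine ⟨Y₂, ⟨hZ₁ Y₂ fun z hz => h2' z (Finset.mem_union_right _ hz), h2⟩, fun z hz => ?_⟩
  rw [h2' z (Finset.mem_union_left _ hz), h1' z hz]

/-- the generic truth value of a universal sentence -/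
def tU (σ : USent) : Prop := ∀ p ∈ σ, ¬ SatY p

/-- the generic truth value of a Boolean combination -/
def tB (β : BSent) : Prop := ∀ c ∈ β, ∃ l ∈ c, (l.1 = true ∧ tU l.2) ∨ (l.1 = false ∧ ¬ tU l.2)

/-- an open dense set on which the universal sentence has its generic truth value -/
theorem exU (hO : OpenS) (hD : DenseS) (σ : USent) :
    ∃ O : Set (AddSubgroup R), OpenY O ∧ DenseY O ∧ ∀ Y ∈ O, ((∀ p ∈ σ, Y ∉ Slv p) ↔ tU σ) := by
  by_cases h : tU σ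
  · refine ⟨Set.univ, fun Y _ => ⟨∅, fun _ _ => trivial⟩, fun Y Z => ⟨Y, trivial, fun _ _ => Iff.rfl⟩, ?_⟩
    intro Y _
    exact ⟨fun _ => h, fun _ p hp hY => h p hp ⟨Y, hY⟩⟩
  · have h0 := h
    unfold tU at h
    push Not at h
    obtain ⟨p, hp, hs⟩ := h
    refine ⟨Slv p, hO p, hD p hs, fun Y hY => ⟨fun h1 => absurd hY (h1 p hp), fun h1 => absurd h1 h0⟩⟩

/-- an open dense set on which finitely many universal sentences have their generic truth values -/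
theorem exUs (hO : OpenS) (hD : DenseS) (L : List USent) :
    ∃ O : Set (AddSubgroup R), OpenY O ∧ DenseY O ∧ ∀ Y ∈ O, ∀ σ ∈ L, ((∀ p ∈ σ, Y ∉ Slv p) ↔ tU σ) := by
  induction L with
  | nil =>
    exact ⟨Set.univ, fun Y _ => ⟨∅, fun _ _ => trivial⟩, fun Y Z => ⟨Y, trivial, fun _ _ => Iff.rfl⟩,
      fun Y _ σ h => absurd h List.not_mem_nil⟩
  | cons σ L ih =>
    obtain ⟨O, h1, h2, h3⟩ := exU hO hD σ
    obtain ⟨O', h1', h2', h3'⟩ := ih
    refine ⟨O ∩ O', h1.inter h1', DenseY.inter h1 h2 h2', ?_⟩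
    rintro Y ⟨hY, hY'⟩ ρ hρ
    rcases List.mem_cons.1 hρ with rfl | hρ
    · exact h3 Y hY
    · exact h3' Y hY' ρ hρ

theorem exB (hO : OpenS) (hD : DenseS) (hQ : QuotS) (β : BSent) :
    ∃ O : Set (AddSubgroup R), OpenY O ∧ DenseY O ∧
      ∀ Y ∈ O, ∀ (N : Subgroup (FreeGroup ℕ)) [N.Normal], (∀ w, w ∈ N ↔ pt Y w = true) →
        (β.holds (FreeGroup ℕ ⧸ N) ↔ tB β) := by
  obtain ⟨O, h1, h2, h3⟩ := exUs hO hD (β.flatMap fun c => c.map Prod.snd)
  refine ⟨O, h1, h2, ?_⟩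
  intro Y hY N _ hN
  have key : ∀ c ∈ β, ∀ l ∈ c, (USent.holds l.2 (FreeGroup ℕ ⧸ N) ↔ tU l.2) := by
    intro c hc l hl
    rw [hQ Y N hN]
    exact h3 Y hY _ (List.mem_flatMap.2 ⟨c, hc, List.mem_map.2 ⟨l, hl, rfl⟩⟩)
  unfold BSent.holds tB
  refine forall_congr' fun c => forall_congr' fun hc => exists_congr fun l => ?_
  constructor
  · rintro ⟨hl, h⟩
    exact ⟨hl, by rw [key c hc l hl] at h; exact h⟩
  · rintro ⟨hl, h⟩
    exact ⟨hl, by rw [key c hc l hl]; exact h⟩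

theorem tU_prim (h : DecS) : PrimrecPred tU :=
  PrimrecPred.forall_mem_list (PrimrecPred.not h)

theorem tB_prim (h : DecS) : PrimrecPred tB := by
  refine PrimrecPred.forall_mem_list (PrimrecPred.exists_mem_list ?_)
  have h1 : PrimrecPred fun l : Bool × USent => l.1 = true := Primrec.eq.comp Primrec.fst (Primrec.const true)
  have h2 : PrimrecPred fun l : Bool × USent => l.1 = false := Primrec.eq.comp Primrec.fst (Primrec.const false)
  have h3 : PrimrecPred fun l : Bool × USent => tU l.2 := (tU_prim h).comp Primrec.snd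
  exact (h1.and h3).or (h2.and h3.not)

theorem fin (hDec : DecS) (hO : OpenS) (hD : DenseS) (hQ : QuotS) (hP : PerfS) (hG : GenOpenS) (hB : BaireS) :
    T2T := by
  have hT : ∀ β : BSent, tB β → Gen SH (fun G _ => β.holds G) := by
    intro β hβ
    obtain ⟨O, h1, h2, h3⟩ := exB hO hD hQ β
    exact hG _ O h1 h2 fun Y hY N _ hN => (h3 Y hY N hN).2 hβ
  have hF : ∀ β : BSent, ¬ tB β → Gen SH (fun G _ => ¬ β.holds G) := by
    intro β hβ
    obtain ⟨O, h1, h2, h3⟩ := exB hO hD hQ β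
    exact hG _ O h1 h2 fun Y hY N _ hN h => hβ ((h3 Y hY N hN).1 h)
  have hI : ∀ β : BSent, (tB β ↔ Gen SH (fun G _ => β.holds G)) := by
    intro β
    refine ⟨hT β, fun h => ?_⟩
    by_contra hβ
    obtain ⟨N, hN, h1, h2⟩ := hB _ _ h (hF β hβ)
    exact h2 h1
  refine ⟨hP, fun β => ?_, ?_⟩
  · by_cases hβ : tB β
    · exact Or.inl (hT β hβ)
    · exact Or.inr (hF β hβ)
  · obtain ⟨_, h⟩ := tB_prim hDec
    exact ComputablePred.of_eq ⟨inferInstance, h.to_comp⟩ hI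

end Pool.Agent.Lib.MP_43df1d_lc.GT
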